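import Pool.Agent.Helper6.H.Defs

namespace Pool.Agent.Helper32.H

open Finset Equiv Pool.Agent.Helper90.W2 Pool.Agent.Helper6.H

lemma traj_injective {n k : ℕ} (r : ℕ → Fin k × Bool) (x : Fin k → Perm (Fin n)) (t : ℕ) :
    Function.Injective fun p => traj r x p t := by
  induction t with
  | zero => intro p q h; exact h
  | succ t ih =>
    intro p q h
    exact ih ((act x (r t)).injective h)

lemma edge_true {n k : ℕ} (r : ℕ → Fin k × Bool) (x : Fin k → Perm (Fin n)) (p : Fin n) (t : ℕ)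
    (h : (r t).2 = true) : traj r x p t = (edge r x p t).2 ∧
      traj r x p (t + 1) = x (edge r x p t).1 (edge r x p t).2 := by
  have h1 : (edge r x p t).2 = traj r x p t := by
    simp [edge, h]
  have h2 : (edge r x p t).1 = (r t).1 := rfl
  refine ⟨h1.symm, ?_⟩
  rw [h1, h2]
  change act x (r t) (traj r x p t) = _
  simp [act, h]

lemma edge_false {n k : ℕ} (r : ℕ → Fin k × Bool) (x : Fin k → Perm (Fin n)) (p : Fin n) (t : ℕ)
    (h : (r t).2 = false) : traj r x p (t + 1) = (edge r x p t).2 ∧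
      traj r x p t = x (edge r x p t).1 (edge r x p t).2 := by
  have h1 : (edge r x p t).2 = traj r x p (t + 1) := by
    simp [edge, h]
  have h2 : (edge r x p t).1 = (r t).1 := rfl
  refine ⟨h1.symm, ?_⟩
  rw [h1, h2]
  change _ = x (r t).1 (act x (r t) (traj r x p t))
  simp [act, h]

/-- the endpoints of the edge at step `t` -/
lemma edge_ends {n k : ℕ} (r : ℕ → Fin k × Bool) (x : Fin k → Perm (Fin n)) (p : Fin n) (t : ℕ) :
    ((edge r x p t).2 = traj r x p t ∧ x (edge r x p t).1 (edge r x p t).2 = traj r x p (t + 1)) ∨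
    ((edge r x p t).2 = traj r x p (t + 1) ∧
      x (edge r x p t).1 (edge r x p t).2 = traj r x p t) := by
  cases h : (r t).2
  · exact Or.inr ⟨(edge_false r x p t h).1.symm, (edge_false r x p t h).2.symm⟩
  · exact Or.inl ⟨(edge_true r x p t h).1.symm, (edge_true r x p t h).2.symm⟩

lemma mem_U_of_edge {n k : ℕ} (r : ℕ → Fin k × Bool) (L : ℕ) (x : Fin k → Perm (Fin n)) {j : ℕ}
    (ps : Fin j → Fin n) (p : Fin n) (t : ℕ)
    (h : ∃ i, ∃ t' < L, edge r x (ps i) t' = edge r x p t) :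
    traj r x p t ∈ U r L x ps ∧ traj r x p (t + 1) ∈ U r L x ps := by
  obtain ⟨i, t', ht', h⟩ := h
  have h1 : traj r x (ps i) t' ∈ U r L x ps := (mem_U _ _ _ _ _).2 ⟨i, t', ht'.le, rfl⟩
  have h2 : traj r x (ps i) (t' + 1) ∈ U r L x ps := (mem_U _ _ _ _ _).2 ⟨i, t' + 1, ht', rfl⟩
  have h3 := edge_ends r x (ps i) t'
  have h4 := edge_ends r x p t
  rw [h] at h3
  rcases h3 with ⟨a, b⟩ | ⟨a, b⟩ <;> rcases h4 with ⟨c, d⟩ | ⟨c, d⟩
  · rw [← c, ← d, b, a]; exact ⟨h1, h2⟩
  · rw [← c, ← d, b, a]; exact ⟨h2, h1⟩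
  · rw [← c, ← d, b, a]; exact ⟨h2, h1⟩
  · rw [← c, ← d, b, a]; exact ⟨h1, h2⟩

/-- The statement of packet H-D. -/
def StructureStatement : Prop :=
  ∀ {n k : ℕ} (r : ℕ → Fin k × Bool) (x : Fin k → Perm (Fin n)) (p : Fin n) (L g : ℕ)
    (U : Finset (Fin n)) (OE : Set (Fin k × Fin n))
    (_ : ∀ t, t + 1 < L → r (t + 1) ≠ flip (r t))
    (_ : ∀ t < L, edge r x p t ∈ OE → traj r x p t ∈ U ∧ traj r x p (t + 1) ∈ U)
    (_ : ∀ t₀ < L, edge r x p t₀ ∉ OE → (∀ t < t₀, edge r x p t ≠ edge r x p t₀) →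
      ∀ t ≤ t₀, traj r x p t ≠ traj r x p (t₀ + 1))
    (_ : ∀ t₀ < L, edge r x p t₀ ∉ OE → ∃ t < L, t ≠ t₀ ∧ edge r x p t = edge r x p t₀),
    2 * (firstPos r g L).card ≤ L + 2 + 2 * g +
      2 * (2 * g + 1) * ((range (L + 1)).filter fun t => traj r x p t ∈ U).card

theorem ext_many_of (hS : StructureStatement) {n k : ℕ} (r : ℕ → Fin k × Bool)
    (L m f g F : ℕ) (hL : 0 < L) (hLm : L ≤ m) (hg : 1 ≤ g)
    (hr : ∀ t, t + 1 < L → r (t + 1) ≠ flip (r t))
    (hgen : L + 2 + 2 * g + 2 * (2 * g + 1) * (L / (60 * g)) < 2 * (firstPos r g L).card)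
    (hF : 240 * (f * (g * (m + 1))) ≤ F) (x : Fin k → Perm (Fin n))
    (hx : F ≤ (univ.filter fun i : Fin n => traj r x i L = i).card) (j : ℕ) (hj : j < f)
    (ps : Fin j → Fin n) : ∃ S : Finset (Fin n), F ≤ 2 * S.card ∧ ∀ p ∈ S, Ext r L x ps p := by
  classical
  let fix : Finset (Fin n) := univ.filter fun i : Fin n => traj r x i L = i
  let S : Finset (Fin n) := fix.filter fun p => Ext r L x ps p
  let bad : Finset (Fin n) := fix.filter fun p => ¬ Ext r L x ps p
  refine ⟨S, ?_, fun p hp => (mem_filter.1 hp).2⟩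
  have hcard : S.card + bad.card = fix.card := card_filter_add_card_filter_not _
  have hfix : F ≤ fix.card := hx
  -- each bad point spends much time in U
  have hbad : ∀ p ∈ bad, L / (60 * g) + 1 ≤
      ((range (L + 1)).filter fun t => traj r x p t ∈ U r L x ps).card := by
    intro p hp
    obtain ⟨hp1, hp2⟩ := mem_filter.1 hp
    have hp1' : traj r x p L = p := (mem_filter.1 hp1).2
    have hnot : ∀ t₀ < L, (∀ i, ∀ t < L, edge r x (ps i) t ≠ edge r x p t₀) →
        ¬ (((∀ t < t₀, edge r x p t ≠ edge r x p t₀) ∧ ∃ t ≤ t₀, traj r x p t = traj r x p (t₀ + 1)) ∨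
          ∀ t < L, t ≠ t₀ → edge r x p t ≠ edge r x p t₀) := by
      intro t₀ ht₀ h1 h2
      exact hp2 ⟨hp1', t₀, ht₀, h1, h2⟩
    have h := hS r x p L g (U r L x ps) {e | ∃ i, ∃ t < L, edge r x (ps i) t = e} hr
      (fun t _ he => mem_U_of_edge r L x ps p t he)
      (fun t₀ ht₀ he hfirst t ht htt => by
        refine hnot t₀ ht₀ (fun i t ht h => he ⟨i, t, ht, h⟩) (Or.inl ⟨hfirst, t, ht, htt⟩))
      (fun t₀ ht₀ he => by
        by_contra hcon
        push Not at hcon
        exact hnot t₀ ht₀ (fun i t ht h => he ⟨i, t, ht, h⟩) (Or.inr hcon))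
    by_contra hlt
    push Not at hlt
    have h1 : ((range (L + 1)).filter fun t => traj r x p t ∈ U r L x ps).card ≤ L / (60 * g) := by
      omega
    have h2 := Nat.mul_le_mul_left (2 * (2 * g + 1)) h1
    omega
  -- double counting
  have hsum : ∑ p ∈ bad, ((range (L + 1)).filter fun t => traj r x p t ∈ U r L x ps).card ≤
      (L + 1) * (j * (L + 1)) := by
    calc ∑ p ∈ bad, ((range (L + 1)).filter fun t => traj r x p t ∈ U r L x ps).card
        ≤ ∑ p : Fin n, ((range (L + 1)).filter fun t => traj r x p t ∈ U r L x ps).card :=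
          sum_le_sum_of_subset (subset_univ _)
      _ = ∑ p : Fin n, ∑ t ∈ range (L + 1), (if traj r x p t ∈ U r L x ps then 1 else 0) := by
          simp only [card_filter]
      _ = ∑ t ∈ range (L + 1), ∑ p : Fin n, (if traj r x p t ∈ U r L x ps then 1 else 0) :=
          sum_comm
      _ = ∑ t ∈ range (L + 1), (univ.filter fun p : Fin n => traj r x p t ∈ U r L x ps).card := by
          simp only [card_filter]
      _ ≤ ∑ t ∈ range (L + 1), j * (L + 1) := by
          refine sum_le_sum fun t _ => ?_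
          refine le_trans ?_ (card_U r L x ps)
          refine card_le_card_of_injOn (fun p => traj r x p t) (fun p hp => ?_)
            (traj_injective r x t).injOn
          simpa using hp
      _ = (L + 1) * (j * (L + 1)) := by simp
  have hb1 : bad.card * (L / (60 * g) + 1) ≤ (L + 1) * (j * (L + 1)) := by
    refine le_trans ?_ hsum
    rw [← smul_eq_mul]
    exact card_nsmul_le_sum _ _ _ hbad
  have hq : L ≤ (60 * g) * (L / (60 * g) + 1) := (Nat.lt_mul_div_succ L (by omega)).le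
  have hb2 : bad.card * L ≤ (120 * (g * (j * (L + 1)))) * L := by
    calc bad.card * L ≤ bad.card * ((60 * g) * (L / (60 * g) + 1)) := Nat.mul_le_mul_left _ hq
      _ = (60 * g) * (bad.card * (L / (60 * g) + 1)) := by ring
      _ ≤ (60 * g) * ((L + 1) * (j * (L + 1))) := Nat.mul_le_mul_left _ hb1
      _ ≤ (60 * g) * ((2 * L) * (j * (L + 1))) :=
          Nat.mul_le_mul_left _ (Nat.mul_le_mul_right _ (by omega))
      _ = _ := by ring
  have hb3 : bad.card ≤ 120 * (g * (j * (L + 1))) := Nat.le_of_mul_le_mul_right hb2 hL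
  have hb4 : g * (j * (L + 1)) ≤ f * (g * (m + 1)) := by
    calc g * (j * (L + 1)) = j * (g * (L + 1)) := by ring
      _ ≤ f * (g * (m + 1)) := Nat.mul_le_mul hj.le (Nat.mul_le_mul_left _ (by omega))
  omega

end Pool.Agent.Helper32.H
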